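import Pool.Agent.U853.FL.Fib

set_option autoImplicit false

/-!
The `p`-adic part: the sums modulo `p²`.
-/

namespace Pool.Agent.U853.FL

open Finset Pool.Agent.R439.PL

variable {p : ℕ} [hp : Fact p.Prime]

theorem unit_lt {j : ℕ} (h0 : 0 < j) (h : j < p) : U p (j : ℚ) := by
  have : U p ((j : ℤ) : ℚ) := by
    apply U_int
    intro hd
    have := Nat.le_of_dvd h0 (Int.natCast_dvd_natCast.1 hd)
    omega
  exact_mod_cast this

theorem unit_two (h2 : p ≠ 2) : U p (2 : ℚ) := by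
  have h3 : 2 < p := lt_of_le_of_ne hp.out.two_le (Ne.symm h2)
  have := unit_lt (p := p) (j := 2) (by norm_num) h3
  exact_mod_cast this

theorem Pi_eq (k : ℕ) (hk : k < p) :
    EQ p 2 (∏ j ∈ range k, (1 - (p : ℚ) ^ 2 / ((j : ℚ) + 1) ^ 2)) 1 := by
  have h : EQ p 2 (∏ j ∈ range k, (1 - (p : ℚ) ^ 2 / ((j : ℚ) + 1) ^ 2)) (∏ _j ∈ range k, (1 : ℚ)) := by
    apply EQ.prod
    intro j hj
    have hj' := mem_range.1 hj
    have hu : U p (((j + 1 : ℕ) : ℚ) ^ 2) := (unit_lt (by omega) (by omega)).pow 2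
    push_cast at hu
    have h1 : I p 2 ((p : ℚ) ^ 2 / ((j : ℚ) + 1) ^ 2) := ⟨(((j : ℚ) + 1) ^ 2)⁻¹, hu.2.2, by rw [div_eq_mul_inv]⟩
    refine ⟨sub_mem (one_mem _) h1.mem, one_mem _, ?_⟩
    have : 1 - (p : ℚ) ^ 2 / ((j : ℚ) + 1) ^ 2 - 1 = -((p : ℚ) ^ 2 / ((j : ℚ) + 1) ^ 2) := by ring
    rw [this]
    exact h1.neg
  simpa using h

theorem Pi_eq' (k : ℕ) (hk : 2 * k < p) :
    EQ p 2 (∏ j ∈ range k, (1 - (p : ℚ) ^ 2 / (2 * (j : ℚ) + 1) ^ 2)) 1 := by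
  have h : EQ p 2 (∏ j ∈ range k, (1 - (p : ℚ) ^ 2 / (2 * (j : ℚ) + 1) ^ 2)) (∏ _j ∈ range k, (1 : ℚ)) := by
    apply EQ.prod
    intro j hj
    have hj' := mem_range.1 hj
    have hu : U p (((2 * j + 1 : ℕ) : ℚ) ^ 2) := (unit_lt (by omega) (by omega)).pow 2
    push_cast at hu
    have h1 : I p 2 ((p : ℚ) ^ 2 / (2 * (j : ℚ) + 1) ^ 2) := ⟨((2 * (j : ℚ) + 1) ^ 2)⁻¹, hu.2.2, by rw [div_eq_mul_inv]⟩
    refine ⟨sub_mem (one_mem _) h1.mem, one_mem _, ?_⟩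
    have : 1 - (p : ℚ) ^ 2 / (2 * (j : ℚ) + 1) ^ 2 - 1 = -((p : ℚ) ^ 2 / (2 * (j : ℚ) + 1) ^ 2) := by ring
    rw [this]
    exact h1.neg
  simpa using h

theorem A_dvd (k : ℕ) (h0 : 0 < k) (hk : k < p) : p ∣ A p k := by
  have h := A_mul p k hp.out.one_le
  have h' : (p + k) * A p k = 2 * p * (p + k).choose (2 * k) := by exact_mod_cast h
  have hd : p ∣ (p + k) * A p k := ⟨2 * (p + k).choose (2 * k), by rw [h']; ring⟩
  rcases hp.out.dvd_mul.1 hd with h1 | h1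
  · have : p ∣ k := (Nat.dvd_add_right (dvd_refl p)).1 h1
    have := Nat.le_of_dvd h0 this
    omega
  · exact h1

theorem part1 (h2 : p ≠ 2) (n : ℕ) (hn : p = n + 1) (x : ℕ → ℤ) (S : ℤ)
    (hS : ∑ k ∈ range n, (-1) ^ k * (A (n + 1) (k + 1) : ℤ) * x (k + 1) = S) :
    I p 2 ((p : ℚ) * ∑ k ∈ Ico 1 p, (x k : ℚ) / ((k : ℚ) ^ 2 * ((2 * k).choose k : ℚ)) - (S : ℚ) / (2 * p)) := by
  have hp0 : (p : ℚ) ≠ 0 := p_ne
  have e1 : (p : ℚ) * ∑ k ∈ Ico 1 p, (x k : ℚ) / ((k : ℚ) ^ 2 * ((2 * k).choose k : ℚ)) =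
      ∑ k ∈ range n, (p : ℚ) * ((x (k + 1) : ℚ) / (((k : ℚ) + 1) ^ 2 * ((2 * (k + 1)).choose (k + 1) : ℚ))) := by
    rw [sum_Ico_eq_sum_range, mul_sum, show p - 1 = n by omega]
    refine sum_congr rfl fun k _ => ?_
    rw [add_comm 1 k]
    push_cast
    rfl
  have e2 : (S : ℚ) / (2 * p) = ∑ k ∈ range n, ((-1) ^ k * (A p (k + 1) : ℚ)) / (2 * p) * (x (k + 1) : ℚ) := by
    rw [← hS, ← hn]
    push_cast
    rw [sum_div]
    refine sum_congr rfl fun k _ => ?_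
    ring
  rw [e1, e2, ← sum_sub_distrib]
  apply I.sum
  intro k hk
  have hk' := mem_range.1 hk
  obtain ⟨z, hz⟩ := A_dvd (p := p) (k + 1) (by omega) (by omega)
  have hA := A_prod p hp.out.one_le k
  have hP := Pi_eq (p := p) k (by omega)
  have hPi := EQ.inv (by norm_num) hP.symm U.one
  set P := ∏ j ∈ range k, (1 - (p : ℚ) ^ 2 / ((j : ℚ) + 1) ^ 2) with hPdef
  have hPu : U p P := hP.symm.unit (by norm_num) U.one
  have hP0 : P ≠ 0 := hPu.1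
  have hc0 : ((2 * (k + 1)).choose (k + 1) : ℚ) ≠ 0 := cb_ne _
  have hk0 : ((k : ℚ) + 1) ≠ 0 := by positivity
  have e3 : (p : ℚ) * ((x (k + 1) : ℚ) / (((k : ℚ) + 1) ^ 2 * ((2 * (k + 1)).choose (k + 1) : ℚ))) =
      (((-1) ^ k * (A p (k + 1) : ℚ)) / (2 * p)) * P⁻¹ * (x (k + 1) : ℚ) := by
    field_simp
    linear_combination (-(x (k + 1) : ℚ)) * hA
  rw [e3]
  have e4 : ((-1) ^ k * (A p (k + 1) : ℚ)) / (2 * p) * P⁻¹ * (x (k + 1) : ℚ) -
      ((-1) ^ k * (A p (k + 1) : ℚ)) / (2 * p) * (x (k + 1) : ℚ) =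
      (((-1) ^ k * (z : ℚ)) * (2 : ℚ)⁻¹ * (x (k + 1) : ℚ)) * -(1⁻¹ - P⁻¹) := by
    rw [hz]
    push_cast
    field_simp
    ring
  rw [e4]
  apply I.mulL
  · exact mul_mem (mul_mem (mul_mem (pow_mem (neg_mem (one_mem _)) _) (nat_mem z)) (unit_two h2).2.2) (int_mem _)
  · exact hPi.2.2.neg

theorem unit16 (h2 : p ≠ 2) (k : ℕ) : U p ((16 : ℚ) ^ k) := by
  have h := (unit_two (p := p) h2).pow (4 * k)
  rw [pow_mul] at h
  norm_num at h
  exact h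

theorem part2 (h2 : p ≠ 2) (n : ℕ) (hn : p = 2 * n + 1) (x : ℕ → ℤ) (S : ℤ)
    (hS : ∑ k ∈ range n, (-1) ^ k * (D n k : ℤ) * x k = S) :
    I p 2 (∑ k ∈ range n, ((2 * k).choose k : ℚ) * (x k : ℚ) / ((2 * (k : ℚ) + 1) * 16 ^ k) - (S : ℚ) / p) ∧
    I p 1 (S : ℚ) := by
  have hp0 : (p : ℚ) ≠ 0 := p_ne
  have hpn : (p : ℚ) = 2 * n + 1 := by rw [hn]; push_cast; ring
  have e2 : (S : ℚ) / p = ∑ k ∈ range n, ((-1) ^ k * (D n k : ℚ)) / p * (x k : ℚ) := by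
    rw [← hS]
    push_cast
    rw [sum_div]
    refine sum_congr rfl fun k _ => ?_
    ring
  have key : ∀ k, k < n → ((2 * k).choose k : ℚ) * (x k : ℚ) / ((2 * (k : ℚ) + 1) * 16 ^ k) ∈ Zp p ∧
      EQ p 2 (((2 * k).choose k : ℚ) * (x k : ℚ) / ((2 * (k : ℚ) + 1) * 16 ^ k))
        (((-1) ^ k * (D n k : ℚ)) / p * (x k : ℚ)) := by
    intro k hk
    have hu1 : U p (2 * (k : ℚ) + 1) := by
      have := unit_lt (p := p) (j := 2 * k + 1) (by omega) (by omega)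
      push_cast at this
      exact this
    have hu2 := unit16 (p := p) h2 k
    have hm : ((2 * k).choose k : ℚ) * (x k : ℚ) / ((2 * (k : ℚ) + 1) * 16 ^ k) ∈ Zp p := by
      rw [div_eq_mul_inv]
      exact mul_mem (mul_mem (nat_mem _) (int_mem _)) (hu1.mul hu2).2.2
    refine ⟨hm, ?_⟩
    have hD := D_prod n k
    rw [← hpn] at hD
    have hP := Pi_eq' (p := p) k (by omega)
    set P := ∏ j ∈ range k, (1 - (p : ℚ) ^ 2 / (2 * (j : ℚ) + 1) ^ 2) with hPdef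
    have h16 := hu2.1
    have hk1 := hu1.1
    have e : ((-1) ^ k * (D n k : ℚ)) / p * (x k : ℚ) =
        (((2 * k).choose k : ℚ) * (x k : ℚ) / ((2 * (k : ℚ) + 1) * 16 ^ k)) * P := by
      field_simp
      linear_combination (x k : ℚ) * hD
    rw [e]
    have h3 := (EQ.refl (p := p) (k := 2) hm).mul hP
    rw [mul_one] at h3
    exact h3.symm
  have hsum : EQ p 2 (∑ k ∈ range n, ((2 * k).choose k : ℚ) * (x k : ℚ) / ((2 * (k : ℚ) + 1) * 16 ^ k))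
      (∑ k ∈ range n, ((-1) ^ k * (D n k : ℚ)) / p * (x k : ℚ)) :=
    EQ.sum fun k hk => (key k (mem_range.1 hk)).2
  rw [← e2] at hsum
  refine ⟨hsum.2.2, ⟨(S : ℚ) / p, hsum.2.1, ?_⟩⟩
  rw [pow_one]
  field_simp

/-- the algebra of the final step -/
theorem final (h2 : p ≠ 2) (e f l Fp Lp F2 L2 : ℚ) (he : e = 1 ∨ e = -1) (hf : I p 1 (f)) (hl : I p 1 (l - 2 * e))
    (hlf : l ^ 2 = 5 * f ^ 2 + 4) (hFp : 2 * Fp = e * f + l) (hLp : 2 * Lp = 5 * f + e * l)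
    (hF2 : F2 = Fp * Lp) (hL2 : L2 = Lp ^ 2 + 2) :
    I p 3 (e - F2 + 2 * (e * (3 * f / 2 + 5 * f ^ 2 / 4))) ∧
    I p 3 (3 - L2 + 2 * (5 * f / 2 + 15 * f ^ 2 / 4)) ∧
    I p 3 (e - Fp + e * (f / 2 + 5 * f ^ 2 / 8)) ∧
    I p 3 (1 - Lp + (5 * f / 2 + 5 * f ^ 2 / 8)) := by
  have hu2 := unit_two (p := p) h2
  have he2 : e ^ 2 = 1 := by rcases he with rfl | rfl <;> norm_num
  have hem : e ∈ Zp p := by
    rcases he with rfl | rfl
    · exact one_mem _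
    · exact neg_mem (one_mem _)
  have hff : I p 2 (5 * f ^ 2) := by
    have := hf.mul hf
    rw [← pow_two] at this
    have h5 : (5 : ℚ) ∈ Zp p := by exact_mod_cast nat_mem (p := p) 5
    exact this.mulL h5
  have hue : U p e := by
    rcases he with rfl | rfl
    · exact U.one
    · have := U_int (p := p) (a := -1) (by
        intro h
        have := (pz (p := p)).not_dvd_one
        exact this ((dvd_neg.1 h)))
      exact_mod_cast this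
  -- l + 2e is a unit
  have hu : U p (l + 2 * e) := by
    have h4 : U p (2 * 2 * e) := (hu2.mul hu2).mul hue
    have hEQ : EQ p 1 (2 * 2 * e) (l + 2 * e) := by
      refine ⟨h4.2.1, ?_, ?_⟩
      · have : l + 2 * e = (l - 2 * e) + 2 * 2 * e := by ring
        rw [this]; exact add_mem hl.mem h4.2.1
      · have : 2 * 2 * e - (l + 2 * e) = -(l - 2 * e) := by ring
        rw [this]; exact hl.neg
    exact hEQ.unit one_pos h4
  have hl2 : I p 2 (l - 2 * e) := by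
    apply hu.cancel
    have : (l + 2 * e) * (l - 2 * e) = 5 * f ^ 2 := by
      linear_combination hlf - 4 * he2
    rw [this]; exact hff
  have hl4 : I p 4 (l - 2 * e - 5 / 4 * e * f ^ 2) := by
    have h4 : U p (2 * 2 * e) := (hu2.mul hu2).mul hue
    apply h4.cancel
    have : 2 * 2 * e * (l - 2 * e - 5 / 4 * e * f ^ 2) = -((l - 2 * e) * (l - 2 * e)) := by
      linear_combination hlf + (-4 - 5 * f ^ 2) * he2
    rw [this]
    exact (hl2.mul hl2).neg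
  have i2 : (2 : ℚ)⁻¹ ∈ Zp p := hu2.2.2
  have hFp' : Fp = (e * f + l) / 2 := by linarith
  have hLp' : Lp = (5 * f + e * l) / 2 := by linarith
  refine ⟨?_, ?_, ?_, ?_⟩
  · have e1 : e - F2 + 2 * (e * (3 * f / 2 + 5 * f ^ 2 / 4)) = (-3 * (2 : ℚ)⁻¹) * (f * (l - 2 * e)) := by
      rw [hF2, hFp', hLp']
      linear_combination (-(f * l) / 4) * he2 - e / 4 * hlf
    rw [e1]
    have h3 : (-3 : ℚ) ∈ Zp p := by exact_mod_cast int_mem (p := p) (-3)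
    exact (hf.mul hl2).mulL (mul_mem h3 i2)
  · have e1 : 3 - L2 + 2 * (5 * f / 2 + 15 * f ^ 2 / 4) = (-5 * (2 : ℚ)⁻¹ * e) * (f * (l - 2 * e)) := by
      rw [hL2, hLp']
      linear_combination (-5 * f - l ^ 2 / 4) * he2 - hlf / 4
    rw [e1]
    have h3 : (-5 : ℚ) ∈ Zp p := by exact_mod_cast int_mem (p := p) (-5)
    exact (hf.mul hl2).mulL (mul_mem (mul_mem h3 i2) hem)
  · have e1 : e - Fp + e * (f / 2 + 5 * f ^ 2 / 8) = (-(2 : ℚ)⁻¹) * (l - 2 * e - 5 / 4 * e * f ^ 2) := by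
      rw [hFp']; ring
    rw [e1]
    exact (hl4.mulL (neg_mem i2)).mono (by norm_num)
  · have e1 : 1 - Lp + (5 * f / 2 + 5 * f ^ 2 / 8) = (-(2 : ℚ)⁻¹ * e) * (l - 2 * e - 5 / 4 * e * f ^ 2) := by
      rw [hLp']
      linear_combination (-1 - 5 / 8 * f ^ 2) * he2
    rw [e1]
    exact (hl4.mulL (mul_mem (neg_mem i2) hem)).mono (by norm_num)

end Pool.Agent.U853.FL
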