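import Mathlib

set_option autoImplicit false

/-!
Explicit expansions of the sequences `Z (n+2) = (2-t) Z (n+1) - Z n`.
-/

namespace Pool.Agent.U853.FL

open Finset

section ring

variable {R : Type*} [CommRing R]

/-- the sequence `0, 1, 2 - t, ...` -/
def Z (t : R) : ℕ → R
  | 0 => 0
  | 1 => 1
  | n + 2 => (2 - t) * Z t (n + 1) - Z t n

theorem coef (n k : ℕ) : ((n + 2 + (k + 1)).choose (2 * (k + 1) + 1) : ℤ) =
    2 * ((n + 1 + (k + 1)).choose (2 * (k + 1) + 1) : ℤ) - ((n + (k + 1)).choose (2 * (k + 1) + 1) : ℤ)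
      + ((n + 1 + k).choose (2 * k + 1) : ℤ) := by
  have e1 : (n + 2 + (k + 1)).choose (2 * (k + 1) + 1) =
      (n + k + 2).choose (2 * k + 2) + (n + k + 2).choose (2 * k + 3) := by
    rw [show n + 2 + (k + 1) = (n + k + 2) + 1 by ring, show 2 * (k + 1) + 1 = (2 * k + 2) + 1 by ring,
      Nat.choose_succ_succ']
  have e2 : (n + k + 2).choose (2 * k + 3) =
      (n + k + 1).choose (2 * k + 2) + (n + k + 1).choose (2 * k + 3) := by
    rw [show n + k + 2 = (n + k + 1) + 1 by ring, show 2 * k + 3 = (2 * k + 2) + 1 by ring,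
      Nat.choose_succ_succ']
  have e3 : (n + k + 2).choose (2 * k + 2) =
      (n + k + 1).choose (2 * k + 1) + (n + k + 1).choose (2 * k + 2) := by
    rw [show n + k + 2 = (n + k + 1) + 1 by ring, show 2 * k + 2 = (2 * k + 1) + 1 by ring,
      Nat.choose_succ_succ']
  have a1 : n + 1 + (k + 1) = n + k + 2 := by ring
  have a2 : n + (k + 1) = n + k + 1 := by ring
  have a3 : 2 * (k + 1) + 1 = 2 * k + 3 := by ring
  have a4 : n + 1 + k = n + k + 1 := by ring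
  rw [e1, a1, a2, a3, a4, e2, e3]
  push_cast
  ring

theorem Z_exp (t : R) : ∀ n M : ℕ, n ≤ M →
    Z t n = ∑ k ∈ range M, (-1) ^ k * ((n + k).choose (2 * k + 1) : R) * t ^ k := by
  intro n
  induction n using Nat.strong_induction_on with
  | _ n ih =>
    match n, ih with
    | 0, _ =>
      intro M _
      symm
      apply sum_eq_zero
      intro k _
      rw [Nat.choose_eq_zero_of_lt (by omega)]
      simp
    | 1, _ =>
      intro M hM
      obtain ⟨M, rfl⟩ : ∃ M', M = M' + 1 := ⟨M - 1, by omega⟩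
      rw [sum_range_succ']
      simp only [Z]
      have : ∑ k ∈ range M, (-1) ^ (k + 1) * ((1 + (k + 1)).choose (2 * (k + 1) + 1) : R) * t ^ (k + 1) = 0 := by
        apply sum_eq_zero
        intro k _
        rw [Nat.choose_eq_zero_of_lt (by omega)]
        simp
      rw [this]
      simp
    | n + 2, ih =>
      intro M hM
      obtain ⟨M, rfl⟩ : ∃ M', M = M' + 1 := ⟨M - 1, by omega⟩
      have h1 := ih (n + 1) (by omega) (M + 1) (by omega)
      have h0 := ih n (by omega) (M + 1) (by omega)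
      have h1' := ih (n + 1) (by omega) M (by omega)
      simp only [Z]
      have e : (2 - t) * Z t (n + 1) - Z t n = 2 * Z t (n + 1) - Z t n - t * Z t (n + 1) := by ring
      rw [e]
      nth_rewrite 1 [h1]
      rw [h1', h0, sum_range_succ', sum_range_succ', sum_range_succ']
      rw [mul_add, mul_sum, mul_sum]
      have hz : ∀ k, ((n + 2 + (k + 1)).choose (2 * (k + 1) + 1) : R) =
          2 * ((n + 1 + (k + 1)).choose (2 * (k + 1) + 1) : R) - ((n + (k + 1)).choose (2 * (k + 1) + 1) : R)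
            + ((n + 1 + k).choose (2 * k + 1) : R) := by
        intro k
        have := congrArg (Int.cast : ℤ → R) (coef n k)
        push_cast at this
        exact this
      have hs : ∑ k ∈ range M, (-1) ^ (k + 1) * ((n + 2 + (k + 1)).choose (2 * (k + 1) + 1) : R) * t ^ (k + 1)
          = ∑ k ∈ range M, 2 * ((-1) ^ (k + 1) * ((n + 1 + (k + 1)).choose (2 * (k + 1) + 1) : R) * t ^ (k + 1))
            - ∑ k ∈ range M, (-1) ^ (k + 1) * ((n + (k + 1)).choose (2 * (k + 1) + 1) : R) * t ^ (k + 1)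
            - ∑ k ∈ range M, t * ((-1) ^ k * ((n + 1 + k).choose (2 * k + 1) : R) * t ^ k) := by
        rw [← sum_sub_distrib, ← sum_sub_distrib]
        refine sum_congr rfl fun k _ => ?_
        rw [hz k]
        ring
      rw [hs]
      push_cast
      simp
      ring

/-- the coefficients of `Z (n+1) - Z (n-1)` -/
def A (n k : ℕ) : ℕ := (n + k).choose (2 * k) + (n - 1 + k).choose (2 * k)

theorem A_eq (n k : ℕ) : ((n + 2 + k).choose (2 * k + 1) : ℤ) - ((n + k).choose (2 * k + 1) : ℤ) = (A (n + 1) k : ℤ) := by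
  unfold A
  have e1 : (n + 2 + k).choose (2 * k + 1) = (n + 1 + k).choose (2 * k) + (n + 1 + k).choose (2 * k + 1) := by
    rw [show n + 2 + k = (n + 1 + k) + 1 by ring, Nat.choose_succ_succ']
  have e2 : (n + 1 + k).choose (2 * k + 1) = (n + k).choose (2 * k) + (n + k).choose (2 * k + 1) := by
    rw [show n + 1 + k = (n + k) + 1 by ring, Nat.choose_succ_succ']
  rw [e1, e2]
  simp only [Nat.add_sub_cancel]
  push_cast
  ring

theorem V_exp (t : R) (n M : ℕ) (hM : n + 2 ≤ M) :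
    Z t (n + 2) - Z t n = ∑ k ∈ range M, (-1) ^ k * (A (n + 1) k : R) * t ^ k := by
  rw [Z_exp t (n + 2) M hM, Z_exp t n M (by omega), ← sum_sub_distrib]
  refine sum_congr rfl fun k _ => ?_
  have := congrArg (Int.cast : ℤ → R) (A_eq n k)
  push_cast at this
  rw [← this]
  ring

/-- the coefficients of `Z (n+1) + Z n` -/
def D (n k : ℕ) : ℕ := (n + k).choose (2 * k) + 2 * (n + k).choose (2 * k + 1)

theorem U_exp (t : R) (n M : ℕ) (hM : n + 1 ≤ M) :
    Z t (n + 1) + Z t n = ∑ k ∈ range M, (-1) ^ k * (D n k : R) * t ^ k := by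
  rw [Z_exp t (n + 1) M hM, Z_exp t n M (by omega), ← sum_add_distrib]
  refine sum_congr rfl fun k _ => ?_
  have e1 : (n + 1 + k).choose (2 * k + 1) = (n + k).choose (2 * k) + (n + k).choose (2 * k + 1) := by
    rw [show n + 1 + k = (n + k) + 1 by ring, Nat.choose_succ_succ']
  rw [e1]
  unfold D
  push_cast
  ring

end ring

section rat

/-- `C(n+k+1, 2k+2) (2k+1) (2k+2) = (n+k+1) (n-k) C(n+k,2k)` -/
theorem E_succ (n k : ℕ) : ((n + (k + 1)).choose (2 * (k + 1)) : ℚ) * ((2 * k + 1) * (2 * k + 2)) =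
    (n + k + 1) * ((n : ℚ) - k) * ((n + k).choose (2 * k) : ℚ) := by
  have h1 : (n + k).choose (2 * k + 1) * (2 * k + 1) = (n + k).choose (2 * k) * (n + k - 2 * k) :=
    Nat.choose_succ_right_eq _ _
  have h2 : (n + k + 1) * (n + k).choose (2 * k + 1) = (n + k + 1).choose (2 * k + 1 + 1) * (2 * k + 1 + 1) :=
    Nat.add_one_mul_choose_eq _ _
  have h1' : ((n + k).choose (2 * k + 1) : ℚ) * (2 * k + 1) = ((n + k).choose (2 * k) : ℚ) * ((n : ℚ) - k) := by
    rcases le_or_gt k n with h | h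
    · have := congrArg (Nat.cast : ℕ → ℚ) h1
      rw [Nat.cast_mul, Nat.cast_mul, Nat.cast_sub (by omega)] at this
      push_cast at this
      rw [this]; ring
    · rw [Nat.choose_eq_zero_of_lt (by omega : n + k < 2 * k + 1), Nat.choose_eq_zero_of_lt (by omega : n + k < 2 * k)]
      simp
  have h2' : ((n : ℚ) + k + 1) * ((n + k).choose (2 * k + 1) : ℚ) = ((n + k + 1).choose (2 * k + 2) : ℚ) * (2 * k + 2) := by
    have := congrArg (Nat.cast : ℕ → ℚ) h2
    push_cast at this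
    rw [this]; ring
  rw [show n + (k + 1) = n + k + 1 by ring, show 2 * (k + 1) = 2 * k + 2 by ring]
  linear_combination (-(2 * (k : ℚ) + 1)) * h2' + ((n : ℚ) + k + 1) * h1'

/-- `(n+k) A = 2 n C(n+k,2k)` -/
theorem A_mul (n k : ℕ) (hn : 1 ≤ n) : ((n : ℚ) + k) * (A n k : ℚ) = 2 * n * ((n + k).choose (2 * k) : ℚ) := by
  obtain ⟨n, rfl⟩ : ∃ m, n = m + 1 := ⟨n - 1, by omega⟩
  unfold A
  have h : ((n : ℚ) + 1 + k) * ((n + k).choose (2 * k) : ℚ) = ((n + 1 + k).choose (2 * k) : ℚ) * ((n : ℚ) + 1 - k) := by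
    rcases le_or_gt k (n + 1) with hk | hk
    · have h2 := Nat.choose_mul_succ_eq (n + k) (2 * k)
      have h3 := congrArg (Nat.cast : ℕ → ℚ) h2
      rw [Nat.cast_mul, Nat.cast_mul, Nat.cast_sub (by omega)] at h3
      push_cast at h3
      rw [show n + 1 + k = n + k + 1 by ring]
      linear_combination h3
    · rw [Nat.choose_eq_zero_of_lt (by omega : n + k < 2 * k), Nat.choose_eq_zero_of_lt (by omega : n + 1 + k < 2 * k)]
      simp
  simp only [Nat.add_sub_cancel]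
  push_cast
  linear_combination h

theorem A_succ (n k : ℕ) (hn : 1 ≤ n) : (A n (k + 1) : ℚ) * ((2 * k + 1) * (2 * k + 2)) =
    ((n : ℚ) ^ 2 - k ^ 2) * (A n k : ℚ) := by
  have h1 := A_mul n k hn
  have h2 := A_mul n (k + 1) hn
  have h3 := E_succ n k
  have h0 : ((n : ℚ) + k + 1) ≠ 0 := by positivity
  apply mul_left_cancel₀ h0
  push_cast at h2
  linear_combination ((2 * (k : ℚ) + 1) * (2 * k + 2)) * h2 + 2 * n * h3 - (((n : ℚ) - k) * (n + k + 1)) * h1

theorem A_zero (n : ℕ) : A n 0 = 2 := by simp [A]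

theorem A_self (n : ℕ) (hn : 1 ≤ n) : A n n = 1 := by
  unfold A
  rw [show n + n = 2 * n by ring, Nat.choose_self, Nat.choose_eq_zero_of_lt (by omega)]

theorem D_eq (n k : ℕ) : (2 * (k : ℚ) + 1) * (D n k : ℚ) = (2 * n + 1) * ((n + k).choose (2 * k) : ℚ) := by
  have h1 : (n + k).choose (2 * k + 1) * (2 * k + 1) = (n + k).choose (2 * k) * (n + k - 2 * k) :=
    Nat.choose_succ_right_eq _ _
  have h1' : ((n + k).choose (2 * k + 1) : ℚ) * (2 * k + 1) = ((n + k).choose (2 * k) : ℚ) * ((n : ℚ) - k) := by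
    rcases le_or_gt k n with h | h
    · have := congrArg (Nat.cast : ℕ → ℚ) h1
      rw [Nat.cast_mul, Nat.cast_mul, Nat.cast_sub (by omega)] at this
      push_cast at this
      rw [this]; ring
    · rw [Nat.choose_eq_zero_of_lt (by omega : n + k < 2 * k + 1), Nat.choose_eq_zero_of_lt (by omega : n + k < 2 * k)]
      simp
  unfold D
  push_cast
  linear_combination 2 * h1'

theorem D_succ (n k : ℕ) : (D n (k + 1) : ℚ) * ((2 * k + 3) * (2 * k + 2)) =
    ((n : ℚ) + k + 1) * ((n : ℚ) - k) * (D n k : ℚ) := by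
  have h1 := D_eq n k
  have h2 := D_eq n (k + 1)
  have h3 := E_succ n k
  have h0 : (2 * (k : ℚ) + 1) ≠ 0 := by positivity
  apply mul_left_cancel₀ h0
  push_cast at h2
  linear_combination ((2 * (k : ℚ) + 1) * (2 * k + 2)) * h2 + (2 * n + 1) * h3 - (((n : ℚ) - k) * (n + k + 1)) * h1

theorem D_zero (n : ℕ) : D n 0 = 2 * n + 1 := by simp [D]; ring

theorem D_self (n : ℕ) : D n n = 1 := by
  unfold D
  rw [show n + n = 2 * n by ring, Nat.choose_self, Nat.choose_eq_zero_of_lt (by omega)]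

theorem cb_succ (k : ℕ) : ((k : ℚ) + 1) * ((2 * (k + 1)).choose (k + 1) : ℚ) = 2 * (2 * k + 1) * ((2 * k).choose k : ℚ) := by
  have := Nat.succ_mul_centralBinom_succ k
  unfold Nat.centralBinom at this
  exact_mod_cast this

theorem cb_ne (k : ℕ) : ((2 * k).choose k : ℚ) ≠ 0 := by
  have := Nat.centralBinom_pos k
  unfold Nat.centralBinom at this
  positivity

/-- `(-1)^k A(n,k+1) (k+1)² C(2k+2,k+1) = 2 n² ∏_{1 ≤ j ≤ k} (1 - n²/j²)` -/
theorem A_prod (n : ℕ) (hn : 1 ≤ n) (k : ℕ) :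
    (-1) ^ k * (A n (k + 1) : ℚ) * (((k : ℚ) + 1) ^ 2 * ((2 * (k + 1)).choose (k + 1) : ℚ)) =
      2 * (n : ℚ) ^ 2 * ∏ j ∈ range k, (1 - (n : ℚ) ^ 2 / ((j : ℚ) + 1) ^ 2) := by
  induction k with
  | zero =>
    have h := A_succ n 0 hn
    rw [A_zero] at h
    norm_num at h
    norm_num
    linarith
  | succ k ih =>
    rw [prod_range_succ]
    have er : 2 * (n : ℚ) ^ 2 * ((∏ j ∈ range k, (1 - (n : ℚ) ^ 2 / ((j : ℚ) + 1) ^ 2)) * (1 - (n : ℚ) ^ 2 / ((k : ℚ) + 1) ^ 2))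
        = (2 * (n : ℚ) ^ 2 * ∏ j ∈ range k, (1 - (n : ℚ) ^ 2 / ((j : ℚ) + 1) ^ 2)) * (1 - (n : ℚ) ^ 2 / ((k : ℚ) + 1) ^ 2) := by
      ring
    rw [er, ← ih]
    have h := A_succ n (k + 1) hn
    have hc := cb_succ (k + 1)
    have h0 : ((k : ℚ) + 1) ≠ 0 := by positivity
    push_cast at h hc ⊢
    have e : ((n : ℚ) ^ 2 / ((k : ℚ) + 1) ^ 2) * ((k : ℚ) + 1) ^ 2 = (n : ℚ) ^ 2 := by
      field_simp
    have h1 : (k : ℚ) + 1 + 1 ≠ 0 := by positivity
    have key : (A n (k + 1 + 1) : ℚ) * (((k : ℚ) + 1 + 1) ^ 2 * ((2 * (k + 1 + 1)).choose (k + 1 + 1) : ℚ)) =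
        ((n : ℚ) ^ 2 - ((k : ℚ) + 1) ^ 2) * (A n (k + 1) : ℚ) * ((2 * (k + 1)).choose (k + 1) : ℚ) := by
      calc (A n (k + 1 + 1) : ℚ) * (((k : ℚ) + 1 + 1) ^ 2 * ((2 * (k + 1 + 1)).choose (k + 1 + 1) : ℚ))
          = (A n (k + 1 + 1) : ℚ) * ((k : ℚ) + 1 + 1) *
            (((k : ℚ) + 1 + 1) * ((2 * (k + 1 + 1)).choose (k + 1 + 1) : ℚ)) := by ring
        _ = (A n (k + 1 + 1) : ℚ) * ((2 * ((k : ℚ) + 1) + 1) * (2 * ((k : ℚ) + 1) + 2)) *
            ((2 * (k + 1)).choose (k + 1) : ℚ) := by rw [hc]; ring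
        _ = _ := by rw [h]
    have e2 : (-1 : ℚ) ^ (k + 1) * (A n (k + 1 + 1) : ℚ) * (((k : ℚ) + 1 + 1) ^ 2 * ((2 * (k + 1 + 1)).choose (k + 1 + 1) : ℚ)) =
        (-1) ^ (k + 1) * (((n : ℚ) ^ 2 - ((k : ℚ) + 1) ^ 2) * (A n (k + 1) : ℚ) * ((2 * (k + 1)).choose (k + 1) : ℚ)) := by
      rw [← key]; ring
    rw [e2, pow_succ]
    linear_combination ((-1) ^ k * (A n (k + 1) : ℚ) * ((2 * (k + 1)).choose (k + 1) : ℚ)) * e

/-- `(-1)^k D(n,k) (2k+1) 16^k = (2n+1) C(2k,k) ∏_{j<k} (1 - (2n+1)²/(2j+1)²)` -/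
theorem D_prod (n : ℕ) (k : ℕ) :
    (-1) ^ k * (D n k : ℚ) * ((2 * (k : ℚ) + 1) * 16 ^ k) =
      (2 * (n : ℚ) + 1) * ((2 * k).choose k : ℚ) *
        ∏ j ∈ range k, (1 - (2 * (n : ℚ) + 1) ^ 2 / (2 * (j : ℚ) + 1) ^ 2) := by
  induction k with
  | zero =>
    rw [D_zero]
    norm_num
  | succ k ih =>
    have h0 : (2 * (k : ℚ) + 1) ≠ 0 := by positivity
    have h1 : ((k : ℚ) + 1) ≠ 0 := by positivity
    have h := D_succ n k
    have hc := cb_succ k
    rw [prod_range_succ]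
    have e : ((2 * (n : ℚ) + 1) ^ 2 / (2 * (k : ℚ) + 1) ^ 2) * (2 * (k : ℚ) + 1) ^ 2 = (2 * (n : ℚ) + 1) ^ 2 := by
      field_simp
    set P := ∏ j ∈ range k, (1 - (2 * (n : ℚ) + 1) ^ 2 / (2 * (j : ℚ) + 1) ^ 2) with hP
    set Q := (2 * (n : ℚ) + 1) ^ 2 / (2 * (k : ℚ) + 1) ^ 2 with hQ
    apply mul_left_cancel₀ (mul_ne_zero h0 h1)
    push_cast
    -- LHS = -(-1)^k * 16^k *16 * (2k+1) (k+1) (2k+3) D(k+1)
    have l1 : (2 * (k : ℚ) + 1) * ((k : ℚ) + 1) * ((-1) ^ (k + 1) * (D n (k + 1) : ℚ) * ((2 * ((k : ℚ) + 1) + 1) * 16 ^ (k + 1)))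
        = -8 * (((n : ℚ) + k + 1) * ((n : ℚ) - k)) * ((-1) ^ k * (D n k : ℚ) * ((2 * (k : ℚ) + 1) * 16 ^ k)) := by
      rw [pow_succ, pow_succ]
      linear_combination (-8 * (-1) ^ k * 16 ^ k * (2 * (k : ℚ) + 1)) * h
    rw [l1, ih]
    have r1 : (2 * (k : ℚ) + 1) * ((k : ℚ) + 1) * ((2 * (n : ℚ) + 1) * ((2 * (k + 1)).choose (k + 1) : ℚ) * (P * (1 - Q)))
        = (2 * (k : ℚ) + 1) * ((2 * (n : ℚ) + 1) * (2 * (2 * k + 1) * ((2 * k).choose k : ℚ)) * (P * (1 - Q))) := by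
      rw [← hc]; ring
    rw [r1]
    linear_combination (2 * (2 * (n : ℚ) + 1) * ((2 * k).choose k : ℚ) * P) * e

end rat

end Pool.Agent.U853.FL
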