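import Pool.Agent.U853.FL.Exp
import Pool.Agent.R439.PLoc

set_option autoImplicit false

/-!
Fibonacci and Lucas numbers: exact sums, and the sums modulo `p²`.
-/

namespace Pool.Agent.U853.FL

open Finset

/-- the Lucas numbers -/
def L : ℕ → ℕ
  | 0 => 2
  | 1 => 1
  | n + 2 => L (n + 1) + L n

section gen

variable {R : Type*} [CommRing R]

theorem Z_rec (y : R) (hy : y ^ 2 = y + 1) (n : ℕ) :
    Z (y ^ 2) (n + 2) = (1 - y) * Z (y ^ 2) (n + 1) - Z (y ^ 2) n := by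
  simp only [Z]
  rw [hy]; ring

theorem Z5 (y : R) (hy : y ^ 2 = y + 1) (n : ℕ) : Z (y ^ 2) (n + 5) = - Z (y ^ 2) n := by
  rw [Z_rec y hy (n + 3), Z_rec y hy (n + 2), Z_rec y hy (n + 1), Z_rec y hy n]
  linear_combination ((y ^ 2 - 3 * y + 1) * Z (y ^ 2) (n + 1) + (y - 2) * Z (y ^ 2) n) * hy

theorem Z10 (y : R) (hy : y ^ 2 = y + 1) (n : ℕ) : Z (y ^ 2) (n + 10) = Z (y ^ 2) n := by
  rw [show n + 10 = (n + 5) + 5 by ring, Z5 y hy, Z5 y hy, neg_neg]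

theorem Z_per (y : R) (hy : y ^ 2 = y + 1) (n j : ℕ) : Z (y ^ 2) (10 * j + n) = Z (y ^ 2) n := by
  induction j with
  | zero => simp
  | succ j ih =>
    rw [show 10 * (j + 1) + n = (10 * j + n) + 10 by ring, Z10 y hy, ih]

theorem Z_vals (y : R) (hy : y ^ 2 = y + 1) : Z (y ^ 2) 0 = 0 ∧ Z (y ^ 2) 1 = 1 ∧
    Z (y ^ 2) 2 = 1 - y ∧ Z (y ^ 2) 3 = 1 - y ∧ Z (y ^ 2) 4 = 1 ∧ Z (y ^ 2) 5 = 0 ∧
    Z (y ^ 2) 6 = -1 ∧ Z (y ^ 2) 7 = -(1 - y) ∧ Z (y ^ 2) 8 = -(1 - y) ∧ Z (y ^ 2) 9 = -1 ∧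
    Z (y ^ 2) 10 = 0 := by
  have h0 : Z (y ^ 2) 0 = 0 := rfl
  have h1 : Z (y ^ 2) 1 = 1 := rfl
  have h2 : Z (y ^ 2) 2 = 1 - y := by
    rw [Z_rec y hy 0, h0, h1]; ring
  have h3 : Z (y ^ 2) 3 = 1 - y := by
    rw [Z_rec y hy 1, h2, h1]; linear_combination hy
  have h4 : Z (y ^ 2) 4 = 1 := by
    rw [Z_rec y hy 2, h3, h2]; linear_combination hy
  refine ⟨h0, h1, h2, h3, h4, ?_, ?_, ?_, ?_, ?_, ?_⟩
  · have := Z5 y hy 0; rw [h0] at this; simpa using this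
  · have := Z5 y hy 1; rw [h1] at this; simpa using this
  · have := Z5 y hy 2; rw [h2] at this; simpa using this
  · have := Z5 y hy 3; rw [h3] at this; simpa using this
  · have := Z5 y hy 4; rw [h4] at this; simpa using this
  · have := Z10 y hy 0; rw [h0] at this; simpa using this

/-- the possible residues -/
def Res (n : ℕ) (e : ℤ) : Prop := (e = 1 ∧ (n % 10 = 1 ∨ n % 10 = 9)) ∨ (e = -1 ∧ (n % 10 = 3 ∨ n % 10 = 7))

theorem V_val (y : R) (hy : y ^ 2 = y + 1) (n : ℕ) (e : ℤ) (h : Res (n + 1) e) :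
    2 * (Z (y ^ 2) (n + 2) - Z (y ^ 2) n) = 1 + e - 2 * e * y := by
  obtain ⟨z0, z1, z2, z3, z4, z5, z6, z7, z8, z9, z10⟩ := Z_vals y hy
  rcases h with ⟨rfl, h | h⟩ | ⟨rfl, h | h⟩
  · obtain ⟨j, rfl⟩ : ∃ j, n = 10 * j := ⟨n / 10, by omega⟩
    have a := Z_per y hy 2 j
    have b := Z_per y hy 0 j
    rw [add_zero] at b
    rw [a, b, z2, z0]; push_cast; ring
  · obtain ⟨j, rfl⟩ : ∃ j, n = 10 * j + 8 := ⟨n / 10, by omega⟩
    have a := Z_per y hy 10 j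
    have b := Z_per y hy 8 j
    rw [show 10 * j + 8 + 2 = 10 * j + 10 by ring, a, b, z10, z8]; push_cast; ring
  · obtain ⟨j, rfl⟩ : ∃ j, n = 10 * j + 2 := ⟨n / 10, by omega⟩
    have a := Z_per y hy 4 j
    have b := Z_per y hy 2 j
    rw [show 10 * j + 2 + 2 = 10 * j + 4 by ring, a, b, z4, z2]; push_cast; ring
  · obtain ⟨j, rfl⟩ : ∃ j, n = 10 * j + 6 := ⟨n / 10, by omega⟩
    have a := Z_per y hy 8 j
    have b := Z_per y hy 6 j
    rw [show 10 * j + 6 + 2 = 10 * j + 8 by ring, a, b, z8, z6]; push_cast; ring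

theorem U_val (y : R) (hy : y ^ 2 = y + 1) (n : ℕ) (e : ℤ) (h : Res (2 * n + 1) e) :
    2 * (y * (Z (y ^ 2) (n + 1) + Z (y ^ 2) n)) = (-1) ^ n * (1 - e + 2 * e * y) := by
  obtain ⟨z0, z1, z2, z3, z4, z5, z6, z7, z8, z9, z10⟩ := Z_vals y hy
  have par : ∀ j i : ℕ, (-1 : R) ^ (10 * j + i) = (-1) ^ i := by
    intro j i
    rw [pow_add, pow_mul]; norm_num
  have hn : n % 10 = 0 ∨ n % 10 = 1 ∨ n % 10 = 3 ∨ n % 10 = 4 ∨ n % 10 = 5 ∨ n % 10 = 6 ∨ n % 10 = 8 ∨ n % 10 = 9 := by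
    rcases h with ⟨_, h | h⟩ | ⟨_, h | h⟩ <;> omega
  obtain ⟨j, i, rfl, hi⟩ : ∃ j i, n = 10 * j + i ∧ (i = 0 ∨ i = 1 ∨ i = 3 ∨ i = 4 ∨ i = 5 ∨ i = 6 ∨ i = 8 ∨ i = 9) :=
    ⟨n / 10, n % 10, by omega, by omega⟩
  have a := Z_per y hy (i + 1) j
  have b := Z_per y hy i j
  rw [show 10 * j + i + 1 = 10 * j + (i + 1) by ring, a, b, par]
  rcases hi with rfl | rfl | rfl | rfl | rfl | rfl | rfl | rfl
  · have he : e = 1 := by rcases h with ⟨h, _⟩ | ⟨_, h⟩ <;> omega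
    rw [he, z1, z0]; push_cast; ring
  · have he : e = -1 := by rcases h with ⟨_, h⟩ | ⟨h, _⟩ <;> omega
    rw [he, z2, z1]; push_cast; linear_combination (-2) * hy
  · have he : e = -1 := by rcases h with ⟨_, h⟩ | ⟨h, _⟩ <;> omega
    rw [he, z4, z3]; push_cast; linear_combination (-2) * hy
  · have he : e = 1 := by rcases h with ⟨h, _⟩ | ⟨_, h⟩ <;> omega
    rw [he, z5, z4]; push_cast; ring
  · have he : e = 1 := by rcases h with ⟨h, _⟩ | ⟨_, h⟩ <;> omega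
    rw [he, z6, z5]; push_cast; ring
  · have he : e = -1 := by rcases h with ⟨_, h⟩ | ⟨h, _⟩ <;> omega
    rw [he, z7, z6]; push_cast; linear_combination 2 * hy
  · have he : e = -1 := by rcases h with ⟨_, h⟩ | ⟨h, _⟩ <;> omega
    rw [he, z9, z8]; push_cast; linear_combination 2 * hy
  · have he : e = 1 := by rcases h with ⟨h, _⟩ | ⟨_, h⟩ <;> omega
    rw [he, z10, z9]; push_cast; ring

/-- first exact sum -/
theorem sum1 (y : R) (hy : y ^ 2 = y + 1) (n : ℕ) (hodd : (n + 1) % 2 = 1) (e : ℤ) (h : Res (n + 1) e) :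
    2 * ∑ k ∈ range n, (-1) ^ k * (A (n + 1) (k + 1) : R) * y ^ (2 * (k + 1)) =
      3 - e + 2 * e * y - 2 * y ^ (2 * (n + 1)) := by
  have h1 := V_exp (y ^ 2) n (n + 2) le_rfl
  have h2 := V_val y hy n e h
  rw [sum_range_succ', sum_range_succ, A_self (n + 1) (by omega), A_zero] at h1
  have hs : ∑ k ∈ range n, (-1 : R) ^ (k + 1) * (A (n + 1) (k + 1) : R) * (y ^ 2) ^ (k + 1) =
      - ∑ k ∈ range n, (-1) ^ k * (A (n + 1) (k + 1) : R) * y ^ (2 * (k + 1)) := by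
    rw [← sum_neg_distrib]
    refine sum_congr rfl fun k _ => ?_
    rw [← pow_mul, pow_succ]; ring
  have hp : (-1 : R) ^ (n + 1) = -1 := Odd.neg_one_pow (Nat.odd_iff.2 hodd)
  rw [hs, hp, ← pow_mul] at h1
  rw [h1] at h2
  push_cast at h2
  linear_combination (-1 : R) * h2

/-- second exact sum -/
theorem sum2 (y : R) (hy : y ^ 2 = y + 1) (n : ℕ) (e : ℤ) (h : Res (2 * n + 1) e) :
    2 * ∑ k ∈ range n, (-1) ^ k * (D n k : R) * y ^ (2 * k + 1) =
      (-1) ^ n * (1 - e + 2 * e * y) - 2 * (-1) ^ n * y ^ (2 * n + 1) := by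
  have h1 := U_exp (y ^ 2) n (n + 1) le_rfl
  have h2 := U_val y hy n e h
  rw [sum_range_succ, D_self] at h1
  rw [h1, mul_add, mul_sum] at h2
  have hs : ∑ k ∈ range n, y * ((-1 : R) ^ k * (D n k : R) * (y ^ 2) ^ k) =
      ∑ k ∈ range n, (-1) ^ k * (D n k : R) * y ^ (2 * k + 1) := by
    refine sum_congr rfl fun k _ => ?_
    rw [← pow_mul, pow_succ]; ring
  rw [hs] at h2
  rw [pow_succ, pow_mul]
  push_cast at h2
  linear_combination h2

end gen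

section real

open Real

theorem L_real (n : ℕ) : (L n : ℝ) = goldenRatio ^ n + goldenConj ^ n := by
  induction n using Nat.strong_induction_on with
  | _ n ih =>
    match n, ih with
    | 0, _ => norm_num [L]
    | 1, _ => simp [L, goldenRatio_add_goldenConj]
    | n + 2, ih =>
      rw [L, Nat.cast_add, ih (n + 1) (by omega), ih n (by omega)]
      have h1 := goldenRatio_sq
      have h2 := goldenConj_sq
      rw [pow_add goldenRatio n 2, pow_add goldenConj n 2, h1, h2]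
      ring

theorem F_real (n : ℕ) : Real.sqrt 5 * (Nat.fib n : ℝ) = goldenRatio ^ n - goldenConj ^ n := by
  rw [coe_fib_eq]
  have : Real.sqrt 5 ≠ 0 := by positivity
  field_simp

theorem sqrt5 : goldenRatio - goldenConj = Real.sqrt 5 := goldenRatio_sub_goldenConj

theorem sF1 (n : ℕ) (hodd : (n + 1) % 2 = 1) (e : ℤ) (h : Res (n + 1) e) :
    ∑ k ∈ range n, (-1) ^ k * (A (n + 1) (k + 1) : ℤ) * (Nat.fib (2 * (k + 1)) : ℤ) =
      e - Nat.fib (2 * (n + 1)) := by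
  have h1 := sum1 goldenRatio goldenRatio_sq n hodd e h
  have h2 := sum1 goldenConj goldenConj_sq n hodd e h
  have h5 : Real.sqrt 5 ≠ 0 := by positivity
  have : (∑ k ∈ range n, (-1) ^ k * (A (n + 1) (k + 1) : ℝ) * (Nat.fib (2 * (k + 1)) : ℝ)) =
      e - Nat.fib (2 * (n + 1)) := by
    apply mul_left_cancel₀ h5
    rw [mul_sum]
    have hs : ∑ k ∈ range n, Real.sqrt 5 * ((-1) ^ k * (A (n + 1) (k + 1) : ℝ) * (Nat.fib (2 * (k + 1)) : ℝ)) =
        ∑ k ∈ range n, (-1) ^ k * (A (n + 1) (k + 1) : ℝ) * goldenRatio ^ (2 * (k + 1)) -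
        ∑ k ∈ range n, (-1) ^ k * (A (n + 1) (k + 1) : ℝ) * goldenConj ^ (2 * (k + 1)) := by
      rw [← sum_sub_distrib]
      refine sum_congr rfl fun k _ => ?_
      have := F_real (2 * (k + 1))
      linear_combination ((-1) ^ k * (A (n + 1) (k + 1) : ℝ)) * this
    rw [hs, mul_sub, F_real]
    linear_combination (1 / 2) * h1 - (1 / 2) * h2 + e * sqrt5
  exact_mod_cast this

theorem sL1 (n : ℕ) (hodd : (n + 1) % 2 = 1) (e : ℤ) (h : Res (n + 1) e) :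
    ∑ k ∈ range n, (-1) ^ k * (A (n + 1) (k + 1) : ℤ) * (L (2 * (k + 1)) : ℤ) =
      3 - L (2 * (n + 1)) := by
  have h1 := sum1 goldenRatio goldenRatio_sq n hodd e h
  have h2 := sum1 goldenConj goldenConj_sq n hodd e h
  have : (∑ k ∈ range n, (-1) ^ k * (A (n + 1) (k + 1) : ℝ) * (L (2 * (k + 1)) : ℝ)) =
      3 - L (2 * (n + 1)) := by
    have hs : ∑ k ∈ range n, ((-1) ^ k * (A (n + 1) (k + 1) : ℝ) * (L (2 * (k + 1)) : ℝ)) =
        ∑ k ∈ range n, (-1) ^ k * (A (n + 1) (k + 1) : ℝ) * goldenRatio ^ (2 * (k + 1)) +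
        ∑ k ∈ range n, (-1) ^ k * (A (n + 1) (k + 1) : ℝ) * goldenConj ^ (2 * (k + 1)) := by
      rw [← sum_add_distrib]
      refine sum_congr rfl fun k _ => ?_
      have := L_real (2 * (k + 1))
      linear_combination ((-1) ^ k * (A (n + 1) (k + 1) : ℝ)) * this
    rw [hs, L_real]
    linear_combination (1 / 2) * h1 + (1 / 2) * h2 + e * goldenRatio_add_goldenConj
  exact_mod_cast this

theorem sF2 (n : ℕ) (e : ℤ) (h : Res (2 * n + 1) e) :
    ∑ k ∈ range n, (-1) ^ k * (D n k : ℤ) * (Nat.fib (2 * k + 1) : ℤ) =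
      (-1) ^ n * (e - Nat.fib (2 * n + 1)) := by
  have h1 := sum2 goldenRatio goldenRatio_sq n e h
  have h2 := sum2 goldenConj goldenConj_sq n e h
  have h5 : Real.sqrt 5 ≠ 0 := by positivity
  have : (∑ k ∈ range n, (-1) ^ k * (D n k : ℝ) * (Nat.fib (2 * k + 1) : ℝ)) =
      (-1) ^ n * (e - Nat.fib (2 * n + 1)) := by
    apply mul_left_cancel₀ h5
    rw [mul_sum]
    have hs : ∑ k ∈ range n, Real.sqrt 5 * ((-1) ^ k * (D n k : ℝ) * (Nat.fib (2 * k + 1) : ℝ)) =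
        ∑ k ∈ range n, (-1) ^ k * (D n k : ℝ) * goldenRatio ^ (2 * k + 1) -
        ∑ k ∈ range n, (-1) ^ k * (D n k : ℝ) * goldenConj ^ (2 * k + 1) := by
      rw [← sum_sub_distrib]
      refine sum_congr rfl fun k _ => ?_
      have := F_real (2 * k + 1)
      linear_combination ((-1) ^ k * (D n k : ℝ)) * this
    have hf := F_real (2 * n + 1)
    rw [hs]
    linear_combination (1 / 2) * h1 - (1 / 2) * h2 + (-1) ^ n * e * sqrt5 + (-1) ^ n * hf
  exact_mod_cast this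

theorem sL2 (n : ℕ) (e : ℤ) (h : Res (2 * n + 1) e) :
    ∑ k ∈ range n, (-1) ^ k * (D n k : ℤ) * (L (2 * k + 1) : ℤ) =
      (-1) ^ n * (1 - L (2 * n + 1)) := by
  have h1 := sum2 goldenRatio goldenRatio_sq n e h
  have h2 := sum2 goldenConj goldenConj_sq n e h
  have : (∑ k ∈ range n, (-1) ^ k * (D n k : ℝ) * (L (2 * k + 1) : ℝ)) =
      (-1) ^ n * (1 - L (2 * n + 1)) := by
    have hs : ∑ k ∈ range n, ((-1) ^ k * (D n k : ℝ) * (L (2 * k + 1) : ℝ)) =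
        ∑ k ∈ range n, (-1) ^ k * (D n k : ℝ) * goldenRatio ^ (2 * k + 1) +
        ∑ k ∈ range n, (-1) ^ k * (D n k : ℝ) * goldenConj ^ (2 * k + 1) := by
      rw [← sum_add_distrib]
      refine sum_congr rfl fun k _ => ?_
      have := L_real (2 * k + 1)
      linear_combination ((-1) ^ k * (D n k : ℝ)) * this
    have hf := L_real (2 * n + 1)
    rw [hs]
    linear_combination (1 / 2) * h1 + (1 / 2) * h2 + (-1) ^ n * e * goldenRatio_add_goldenConj + (-1) ^ n * hf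
  exact_mod_cast this

end real

end Pool.Agent.U853.FL
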